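import Pool.Agent.N783.PQ.Loc
import Pool.Agent.N446.M4.Sym
import Pool.Agent.N424.M4.Has

/-!
# Project PQ (helper783), part REC: the reciprocity law

By helper835.
-/

set_option autoImplicit false
set_option linter.all false

open Polynomial IsDedekindDomain Matrix NumberField WithZero
open scoped Classical

namespace Pool.Agent.N835.PQ

open Pool.Agent.N352.PJ (Mt Typ dd)
open Pool.Agent.N874.PP (Ev Sq1 U0)
open Pool.Agent.N202.M4 (hasse hil IsSymbol S_HAS S_SYM)
open Pool.Agent.N783.PQ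
open Pool.Agent.N446.M4 (hil_pm hil_symm hil_mul_iff hil_eq_one)
open Pool.Agent.W313.BMX (Splits)

/-! ### The real symbol -/

lemma splits_real {a b : ℝ} : Splits a b ↔ 0 ≤ a ∨ 0 ≤ b := by
  constructor
  · rintro ⟨x, y, z, h, e⟩
    by_contra hn
    push Not at hn
    obtain ⟨ha, hb⟩ := hn
    have h1 : a * x ^ 2 ≤ 0 := mul_nonpos_of_nonpos_of_nonneg ha.le (sq_nonneg x)
    have h2 : b * y ^ 2 ≤ 0 := mul_nonpos_of_nonpos_of_nonneg hb.le (sq_nonneg y)
    have h3 := sq_nonneg z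
    have hz : z ^ 2 = 0 := by linarith
    have hx : a * x ^ 2 = 0 := by linarith
    have hy : b * y ^ 2 = 0 := by linarith
    have hz' : z = 0 := pow_eq_zero_iff two_ne_zero |>.1 hz
    have hx' : x = 0 := by
      rcases mul_eq_zero.1 hx with h4 | h4
      · exact absurd h4 ha.ne
      · exact pow_eq_zero_iff two_ne_zero |>.1 h4
    have hy' : y = 0 := by
      rcases mul_eq_zero.1 hy with h4 | h4
      · exact absurd h4 hb.ne
      · exact pow_eq_zero_iff two_ne_zero |>.1 h4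
    rcases h with h | h | h
    · exact h hx'
    · exact h hy'
    · exact h hz'
  · rintro (h | h)
    · exact ⟨1, 0, √a, Or.inl one_ne_zero, by rw [Real.sq_sqrt h]; ring⟩
    · exact ⟨0, 1, √b, Or.inr (Or.inl one_ne_zero), by rw [Real.sq_sqrt h]; ring⟩

lemma symR : IsSymbol (hil ℝ) := by
  refine ⟨hil_pm, hil_symm, ?_, ?_⟩
  · intro a b c ha hb hc
    apply hil_mul_iff
    rw [splits_real, splits_real, splits_real]
    rcases lt_or_gt_of_ne ha with ha | ha
    · rcases lt_or_gt_of_ne hb with hb | hb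
      · rcases lt_or_gt_of_ne hc with hc | hc
        · have h1 := mul_pos_of_neg_of_neg hb hc
          simp [not_le.2 ha, not_le.2 hb, not_le.2 hc, h1.le]
        · have h1 := mul_neg_of_neg_of_pos hb hc
          simp [not_le.2 ha, not_le.2 hb, not_le.2 h1, hc.le]
      · rcases lt_or_gt_of_ne hc with hc | hc
        · have h1 := mul_neg_of_pos_of_neg hb hc
          simp [not_le.2 ha, not_le.2 hc, not_le.2 h1, hb.le]
        · have h1 := mul_pos hb hc
          simp [not_le.2 ha, hb.le, hc.le, h1.le]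
    · simp [ha.le]
  · intro a b x y _ _ h
    rw [hil_eq_one]
    exact ⟨x, y, 1, Or.inr (Or.inr one_ne_zero), by rw [one_pow, h]⟩

/-! ### Diagonal forms -/

lemma exists_diag {n : ℕ} (G : Matrix (Fin n) (Fin n) ℚ) (hs : G.IsSymm) (hd : G.det ≠ 0) :
    ∃ (a : Fin n → ℚ) (T : Matrix (Fin n) (Fin n) ℚ), (∀ i, a i ≠ 0) ∧ T.det ≠ 0 ∧
      T * Matrix.diagonal a * Tᵀ = G := by
  set B : LinearMap.BilinForm ℚ (Fin n → ℚ) := Matrix.toBilin' G with hBd
  have hBa : ∀ x y, B x y = x ⬝ᵥ G *ᵥ y := fun x y => by rw [hBd, Matrix.toBilin'_apply']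
  have hBs : LinearMap.IsSymm B := by
    refine ⟨fun x y => ?_⟩
    show B x y = B y x
    rw [hBa, hBa, Matrix.dotProduct_mulVec, dotProduct_comm, ← Matrix.mulVec_transpose, hs.eq]
  haveI : Invertible (2 : ℚ) := invertibleOfNonzero two_ne_zero
  obtain ⟨v, hv⟩ := LinearMap.BilinForm.exists_orthogonal_basis hBs
  have hfr : Module.finrank ℚ (Fin n → ℚ) = n := by simp
  set w := v.reindex (finCongr hfr) with hw
  have hwo : ∀ i j, i ≠ j → B (w i) (w j) = 0 := by
    intro i j hij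
    rw [hw, Module.Basis.reindex_apply, Module.Basis.reindex_apply]
    apply hv
    intro h
    exact hij ((finCongr hfr).symm.injective h)
  set P : Matrix (Fin n) (Fin n) ℚ := Matrix.of fun i j => w i j with hP
  have hPu : IsUnit P := by
    rw [← Matrix.linearIndependent_rows_iff_isUnit]
    exact w.linearIndependent
  have hPd : IsUnit P.det := (Matrix.isUnit_iff_isUnit_det _).1 hPu
  have hPG : P * G * Pᵀ = Matrix.diagonal fun i => B (w i) (w i) := by
    ext i j
    have e : (P * G * Pᵀ) i j = B (w i) (w j) := by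
      rw [hBa, Matrix.dotProduct_mulVec]
      rfl
    rw [e, Matrix.diagonal_apply]
    by_cases hij : i = j
    · subst hij
      rw [if_pos rfl]
    · rw [if_neg hij]
      exact hwo i j hij
  have hdet : (P * G * Pᵀ).det ≠ 0 := by
    rw [Matrix.det_mul, Matrix.det_mul, Matrix.det_transpose]
    exact mul_ne_zero (mul_ne_zero hPd.ne_zero hd) hPd.ne_zero
  refine ⟨fun i => B (w i) (w i), P⁻¹, ?_, ?_, ?_⟩
  · intro i h0
    apply hdet
    rw [hPG, Matrix.det_diagonal]
    exact Finset.prod_eq_zero (Finset.mem_univ i) h0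
  · have h1 := Matrix.isUnit_nonsing_inv_det P hPd
    exact h1.ne_zero
  · rw [← hPG, Matrix.transpose_nonsing_inv]
    have hPt : IsUnit Pᵀ.det := by rwa [Matrix.det_transpose]
    calc P⁻¹ * (P * G * Pᵀ) * (Pᵀ)⁻¹ = (P⁻¹ * P) * G * (Pᵀ * (Pᵀ)⁻¹) := by
          simp only [Matrix.mul_assoc]
      _ = G := by
          rw [Matrix.nonsing_inv_mul _ hPd, Matrix.mul_nonsing_inv _ hPt, Matrix.one_mul,
            Matrix.mul_one]

/-- two diagonal forms of one matrix -/
lemma hasse_of_inv {F : Type} [Field F] [CharZero F] (hs : IsSymbol (hil F)) {g : ℕ} {G : Mt g F}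
    (hd : G.det ≠ 0) {ε : ℤ} (h : HasInv G ε) {a : Fin (2 * g + 1) → F} (ha : ∀ i, a i ≠ 0)
    {T : Mt g F} (hT : T * Matrix.diagonal a * Tᵀ = G) :
    hasse (hil F) (List.ofFn a) = ε * hasse (hil F) (List.ofFn (sg g : Fin (2 * g + 1) → F)) := by
  obtain ⟨b, R, hb, hR, e⟩ := h
  rw [← e]
  symm
  refine Pool.Agent.N424.M4.has_ F (hil F) hs _ b a hb ha ⟨R⁻¹ * T, ?_⟩
  have hRd : R.det ≠ 0 := by
    intro h0
    apply hd
    rw [← hR, Matrix.det_mul, Matrix.det_mul, h0, zero_mul, zero_mul]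
  have hRu : IsUnit R.det := isUnit_iff_ne_zero.2 hRd
  have hRt : IsUnit Rᵀ.det := by rwa [Matrix.det_transpose]
  rw [Matrix.transpose_mul, Matrix.transpose_nonsing_inv]
  calc R⁻¹ * T * Matrix.diagonal a * (Tᵀ * (Rᵀ)⁻¹)
      = R⁻¹ * (T * Matrix.diagonal a * Tᵀ) * (Rᵀ)⁻¹ := by simp only [Matrix.mul_assoc]
    _ = R⁻¹ * (R * Matrix.diagonal b * Rᵀ) * (Rᵀ)⁻¹ := by rw [hT, hR]
    _ = (R⁻¹ * R) * Matrix.diagonal b * (Rᵀ * (Rᵀ)⁻¹) := by simp only [Matrix.mul_assoc]
    _ = Matrix.diagonal b := by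
        rw [Matrix.nonsing_inv_mul _ hRu, Matrix.mul_nonsing_inv _ hRt, Matrix.one_mul,
          Matrix.mul_one]

/-! ### Base change -/

section base

lemma ov_eq (F : Type) [Field F] [CharZero F] (f : ℤ[X]) : ov F f = oq F (ov ℚ f) := by
  unfold ov oq
  rw [Polynomial.map_map]
  congr 1
  exact RingHom.ext_int _ _

lemma mod_map (F : Type) [Field F] [CharZero F] {f : ℤ[X]} (hf : f.Monic) (P : ℚ[X]) :
    oq F P %ₘ ov F f = oq F (P %ₘ ov ℚ f) := by
  rw [ov_eq]
  unfold oq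
  rw [Polynomial.map_modByMonic _ (hf.map _)]

lemma Gm_map (F : Type) [Field F] [CharZero F] (g : ℕ) {f : ℤ[X]} (hf : f.Monic) (h : ℚ[X]) :
    Gm g (ov F f) (oq F h) = (Gm g (ov ℚ f) h).map (Rat.castHom F) := by
  ext i j
  rw [Matrix.map_apply]
  unfold Gm tp
  rw [Matrix.of_apply, Matrix.of_apply]
  have e : oq F h * X ^ ((i : ℕ) + j) = oq F (h * X ^ ((i : ℕ) + j)) := by
    unfold oq
    rw [Polynomial.map_mul, Polynomial.map_pow, Polynomial.map_X]
  rw [e, mod_map F hf, Polynomial.coeff_map]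

lemma Gm_symm {F : Type} [Field F] (g : ℕ) (f h : F[X]) : (Gm g f h).IsSymm := by
  ext i j
  rw [Matrix.transpose_apply]
  unfold Gm
  rw [Matrix.of_apply, Matrix.of_apply, add_comm]

end base

section gen

variable {g : ℕ} {L : Type} [Field L] [NumberField L] {f : ℤ[X]} {θ : L}

lemma ov_root (hG : IsGen g f θ) : aeval θ (ov ℚ f) = 0 := by
  have e : ov ℚ f = f.map (algebraMap ℤ ℚ) := by rw [algebraMap_int_eq]
  rw [e, aeval_map_algebraMap, hG.root]

lemma aeval_mod (hG : IsGen g f θ) (P : ℚ[X]) : aeval θ (P %ₘ ov ℚ f) = aeval θ P := by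
  conv_rhs => rw [← modByMonic_add_div P (ov ℚ f)]
  rw [map_add, map_mul, ov_root hG, zero_mul, add_zero]

lemma ov_deg (F : Type) [Field F] (hG : IsGen g f θ) : (ov F f).natDegree = 2 * g + 1 := by
  rw [← hG.deg]
  exact hG.mon.natDegree_map _

lemma ov_mon (F : Type) [Field F] (hG : IsGen g f θ) : (ov F f).Monic := hG.mon.map _

lemma repr_aeval (hG : IsGen g f θ) (P : ℚ[X]) (i : Fin (2 * g + 1)) :
    hG.basis.repr (aeval θ P) i = (P %ₘ ov ℚ f).coeff i := by
  have hdeg : (P %ₘ ov ℚ f).natDegree < 2 * g + 1 := by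
    rw [← ov_deg ℚ hG]
    refine natDegree_modByMonic_lt P (ov_mon ℚ hG) ?_
    intro h
    have := ov_deg ℚ hG
    rw [h, natDegree_one] at this
    omega
  rw [← aeval_mod hG, aeval_eq_sum_range' hdeg,
    ← Fin.sum_univ_eq_sum_range (fun i => (P %ₘ ov ℚ f).coeff i • θ ^ i)]
  have e : ∑ i : Fin (2 * g + 1), (P %ₘ ov ℚ f).coeff i • θ ^ (i : ℕ) =
      ∑ i : Fin (2 * g + 1), (P %ₘ ov ℚ f).coeff i • hG.basis i := by
    refine Finset.sum_congr rfl fun j _ => ?_
    rw [hG.basis_apply]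
  rw [e, hG.basis.repr_sum_self]

lemma top_aeval (hG : IsGen g f θ) (P : ℚ[X]) : hG.top (aeval θ P) = tp g (ov ℚ f) P := by
  unfold IsGen.top tp
  rw [Module.Basis.coord_apply, repr_aeval hG]
  rfl

/-- The norm over `F` is the image of the rational norm. -/
lemma norm_map (F : Type) [Field F] [CharZero F] (hG : IsGen g f θ) (h : ℚ[X]) :
    Algebra.norm F (AdjoinRoot.mk (ov F f) (oq F h)) = Rat.castHom F (Algebra.norm ℚ (aeval θ h)) := by
  have hm := ov_mon F hG
  have hd := ov_deg F hG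
  rw [Algebra.norm_eq_matrix_det hG.basis,
    Algebra.norm_eq_matrix_det ((AdjoinRoot.powerBasis' hm).basis.reindex (finCongr hd)),
    RingHom.map_det]
  congr 1
  ext i j
  rw [RingHom.mapMatrix_apply, Matrix.map_apply, Algebra.leftMulMatrix_eq_repr_mul,
    Algebra.leftMulMatrix_eq_repr_mul, Module.Basis.reindex_apply, hG.basis_apply,
    PowerBasis.basis_eq_pow, AdjoinRoot.powerBasis'_gen]
  have e1 : aeval θ h * θ ^ (j : ℕ) = aeval θ (h * X ^ (j : ℕ)) := by
    rw [map_mul, map_pow, aeval_X]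
  have e2 : AdjoinRoot.mk (ov F f) (oq F h) * AdjoinRoot.root (ov F f) ^
      (((finCongr hd).symm j : Fin _) : ℕ) =
      AdjoinRoot.mk (ov F f) (oq F (h * X ^ (j : ℕ))) := by
    unfold oq
    rw [Polynomial.map_mul, Polynomial.map_pow, Polynomial.map_X, map_mul, map_pow,
      AdjoinRoot.mk_X]
    rfl
  rw [e1, repr_aeval hG]
  refine (congrArg (fun x => ((AdjoinRoot.powerBasis' hm).basis.reindex (finCongr hd)).repr x i)
    e2).trans ?_
  rw [Module.Basis.repr_reindex_apply]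
  refine (AdjoinRoot.powerBasisAux'_repr_apply_to_fun hm _ _).trans ?_
  rw [AdjoinRoot.modByMonicHom_mk, mod_map F hG.mon, Polynomial.coeff_map]
  rfl

lemma Gm_det (hG : IsGen g f θ) (h : ℚ[X]) (hα : aeval θ h ≠ 0) : (Gm g (ov ℚ f) h).det ≠ 0 := by
  intro h0
  obtain ⟨v, hv, hv0⟩ := Matrix.exists_mulVec_eq_zero_iff.2 h0
  set y : L := ∑ j, v j • hG.basis j with hy
  have hy0 : y ≠ 0 := by
    intro h1
    apply hv
    have h2 := hG.basis.repr_sum_self v
    rw [← hy, h1] at h2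
    rw [← h2]
    simp
  have h1 : ∀ i : Fin (2 * g + 1), hG.top (aeval θ h * y * hG.basis i) = 0 := by
    intro i
    have h2 := congrFun hv0 i
    rw [Pi.zero_apply] at h2
    rw [← h2, hy, Finset.mul_sum, Finset.sum_mul, map_sum]
    unfold Matrix.mulVec dotProduct
    refine Finset.sum_congr rfl fun j _ => ?_
    rw [mul_smul_comm, smul_mul_assoc, map_smul, smul_eq_mul, mul_comm]
    congr 1
    rw [hG.basis_apply, hG.basis_apply]
    have e1 : aeval θ h * θ ^ (j : ℕ) * θ ^ (i : ℕ) = aeval θ (h * X ^ ((i : ℕ) + j)) := by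
      rw [map_mul, map_pow, aeval_X]
      ring
    rw [e1, top_aeval hG]
    rfl
  have h2 : ∀ z : L, hG.top (aeval θ h * y * z) = 0 := by
    intro z
    rw [← hG.basis.sum_repr z, Finset.mul_sum, map_sum]
    refine Finset.sum_eq_zero fun i _ => ?_
    rw [mul_smul_comm, map_smul, h1, smul_zero]
  have h3 := h2 ((aeval θ h * y)⁻¹ * hG.basis (Fin.last (2 * g)))
  rw [← mul_assoc, mul_inv_cancel₀ (mul_ne_zero hα hy0), one_mul] at h3
  unfold IsGen.top at h3
  rw [Module.Basis.coord_apply, Module.Basis.repr_self, Finsupp.single_eq_same] at h3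
  exact one_ne_zero h3

lemma cop (hG : IsGen g f θ) {h : ℚ[X]} (hα : aeval θ h ≠ 0) : IsCoprime h (ov ℚ f) := by
  have hirr : Irreducible (ov ℚ f) := by
    have hi : IsIntegral ℚ θ := ⟨ov ℚ f, ov_mon ℚ hG, ov_root hG⟩
    have h1 := minpoly.dvd ℚ θ (ov_root hG)
    have h2 : (minpoly ℚ θ).natDegree = 2 * g + 1 := by
      have h3 : (minpoly ℚ θ).natDegree ≤ 2 * g + 1 := by
        rw [← ov_deg ℚ hG]
        exact natDegree_le_of_dvd h1 (ov_mon ℚ hG).ne_zero
      by_contra h4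
      have h5 : (minpoly ℚ θ).natDegree < 2 * g + 1 := lt_of_le_of_ne h3 h4
      have h6 : (minpoly ℚ θ) %ₘ ov ℚ f = minpoly ℚ θ := by
        rw [modByMonic_eq_self_iff (ov_mon ℚ hG)]
        rw [degree_eq_natDegree (minpoly.ne_zero hi), degree_eq_natDegree (ov_mon ℚ hG).ne_zero,
          ov_deg ℚ hG]
        exact_mod_cast h5
      have h7 : ∀ i : Fin (2 * g + 1), (minpoly ℚ θ).coeff i = 0 := by
        intro i
        have h8 := repr_aeval hG (minpoly ℚ θ) i
        rw [minpoly.aeval, h6] at h8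
        rw [← h8]
        simp
      have h9 := h7 ⟨_, h5⟩
      have h10 : (minpoly ℚ θ).leadingCoeff = 1 := minpoly.monic hi
      unfold leadingCoeff at h10
      simp only at h9
      rw [h9] at h10
      exact zero_ne_one h10
    have h3 : minpoly ℚ θ = ov ℚ f := by
      refine (Polynomial.eq_of_monic_of_dvd_of_natDegree_le (minpoly.monic hi) (ov_mon ℚ hG) h1
        ?_).symm
      rw [h2, ov_deg ℚ hG]
    rw [← h3]
    exact minpoly.irreducible hi
  rw [isCoprime_comm, hirr.coprime_iff_not_dvd]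
  rintro ⟨P, hP⟩
  apply hα
  rw [hP, map_mul, ov_root hG, zero_mul]

lemma cop_map (F : Type) [Field F] [CharZero F] (hG : IsGen g f θ) {h : ℚ[X]}
    (hα : aeval θ h ≠ 0) : IsCoprime (oq F h) (ov F f) := by
  rw [ov_eq]
  exact (cop hG hα).map (Polynomial.mapRingHom (Rat.castHom F))

lemma sg_cast (F : Type) [Field F] [CharZero F] (g : ℕ) :
    (List.ofFn fun i : Fin (2 * g + 1) => (((sg g : Fin (2 * g + 1) → ℚ) i : ℚ) : F)) =
      List.ofFn (sg g : Fin (2 * g + 1) → F) := by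
  congr 1
  funext i
  unfold sg
  split_ifs
  · push_cast
    rfl
  · simp

/-- one place -/
lemma one_place (F : Type) [Field F] [CharZero F] (hs : IsSymbol (hil F)) (hG : IsGen g f θ)
    {h : ℚ[X]} (hα : aeval θ h ≠ 0) {a : Fin (2 * g + 1) → ℚ} (ha : ∀ i, a i ≠ 0) {T : Mt g ℚ}
    (hT : T * Matrix.diagonal a * Tᵀ = Gm g (ov ℚ f) h) {ε : ℤ}
    (hI : HasInv (Gm g (ov F f) (oq F h)) ε) :
    hasse (hil F) (List.ofFn fun i => (a i : F)) = ε *
      hasse (hil F) (List.ofFn fun i => (((sg g : Fin (2 * g + 1) → ℚ) i : ℚ) : F)) := by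
  rw [sg_cast]
  have hdF : (Gm g (ov F f) (oq F h)).det ≠ 0 := by
    rw [Gm_map F g hG.mon, ← RingHom.mapMatrix_apply, ← RingHom.map_det]
    intro h0
    exact Gm_det hG h hα ((map_eq_zero_iff _ (Rat.castHom F).injective).1 h0)
  refine hasse_of_inv hs hdF hI (fun i => ?_) (T := T.map (Rat.castHom F)) ?_
  · exact_mod_cast ha i
  · rw [Gm_map F g hG.mon, ← hT, Matrix.map_mul, Matrix.map_mul, Matrix.transpose_map]
    congr 2
    ext i j
    rw [Matrix.map_apply, Matrix.diagonal_apply, Matrix.diagonal_apply]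
    split_ifs
    · rfl
    · simp

end gen

lemma ov_eq_of {L : Type} [Field L] [NumberField L] {p q : ℕ} (hp : p.Prime) (hq : q.Prime)
    {𝔓 : HeightOneSpectrum (𝓞 L)} (h1 : Ov p 𝔓) (h2 : Ov q 𝔓) : p = q := by
  by_contra hne
  have hc : IsCoprime (p : ℤ) (q : ℤ) :=
    Nat.isCoprime_iff_coprime.2 ((Nat.coprime_primes hp hq).2 hne)
  obtain ⟨u, v, huv⟩ := hc
  have h3 : (1 : 𝓞 L) ∈ 𝔓.asIdeal := by
    have := congrArg (Int.cast : ℤ → 𝓞 L) huv
    push_cast at this
    rw [← this]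
    exact 𝔓.asIdeal.add_mem (𝔓.asIdeal.mul_mem_left _ h1) (𝔓.asIdeal.mul_mem_left _ h2)
  exact 𝔓.isPrime.ne_top ((Ideal.eq_top_iff_one _).2 h3)

/-- **The reciprocity law.** -/
theorem rec (h1 : S_PRD) (h2 : S_HIM) (h3 : S_HUN) (h4 : S_HQ) : S_REC := by
  intro g W L _ _ f θ S r hg hG hsf hS hF 𝔮 h𝔮 h hα hsq hev hl2 hlR
  obtain ⟨a, T, ha, -, hT⟩ := exists_diag (Gm g (ov ℚ f) h) (Gm_symm g _ _) (Gm_det hG h hα)
  have hsym := Pool.Agent.N446.M4.sym_
  have him : ∀ (F : Type) [Field F] [CharZero F], IsSymbol (hil F) →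
      LocIm F (ov F f) (oq F h) → hasse (hil F) (List.ofFn fun i => (a i : F)) =
      hasse (hil F) (List.ofFn fun i => (((sg g : Fin (2 * g + 1) → ℚ) i : ℚ) : F)) := by
    intro F _ _ hs hl
    have hI := h2 F g (ov F f) (oq F h) (ov_mon F hG) (ov_deg F hG) (cop_map F hG hα) (by
      rw [norm_map F hG]
      exact hsq.map _) hl
    have := one_place F hs hG hα ha hT hI
    rwa [one_mul] at this
  have hsg : ∀ i, (sg g : Fin (2 * g + 1) → ℚ) i ≠ 0 := by
    intro i
    unfold sg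
    split_ifs
    · exact pow_ne_zero _ (by norm_num)
    · exact one_ne_zero
  have hSp : ∀ q ∈ S, q.Prime := fun q hq => (hS q hq).1
  set ε : ℕ → ℤ := fun q => if ¬ Ev (𝔮 q) (aeval θ h) ∧ ¬ Sq1 (𝔮 q) (aeval θ h * ((q : L) * θ))
    then -1 else 1 with hε
  have key := h1 (2 * g + 1) a (sg g) ha hsg S hSp (him ℝ symR hlR) (by
    intro p hp hpS
    rcases eq_or_ne p 2 with rfl | hp2
    · exact him ℚ_[2] (hsym 2) hl2
    · have hI := h3 g L f θ hg hG hsf p hp2 h hα hsq (by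
        intro 𝔓 hov
        refine hev 𝔓 fun q hq he => ?_
        have := (h𝔮 q hq).1
        rw [← he] at this
        exact hpS (ov_eq_of hp.out (hSp q hq) hov this ▸ hq))
      have := one_place ℚ_[p] (hsym p) hG hα ha hT hI
      rwa [one_mul] at this) ε (by
    intro q hq
    simp only [hε]
    split_ifs
    · exact Or.inr rfl
    · exact Or.inl rfl) (by
    intro q hq hqp
    have hI := h4 g W L f θ S r hg hG hsf hS q hq (hF q hq) (𝔮 q) (h𝔮 q hq).1 (h𝔮 q hq).2 h hα
      hsq (by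
        intro 𝔓 hov hne
        refine hev 𝔓 fun q' hq' he => ?_
        have h5 := (h𝔮 q' hq').1
        rw [← he] at h5
        have h6 := ov_eq_of (hSp q hq) (hSp q' hq') hov h5
        subst h6
        exact hne he)
    exact one_place ℚ_[q] (hsym q) hG hα ha hT hI)
  have hfil : (S.filter fun q => ε q = -1) = S.filter fun q => ¬ Ev (𝔮 q) (aeval θ h) ∧
      ¬ Sq1 (𝔮 q) (aeval θ h * ((q : L) * θ)) := by
    refine Finset.filter_congr fun q _ => ?_
    simp only [hε]
    split_ifs with h5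
    · simp [h5]
    · simp [h5]
  rw [hfil] at key
  exact key

end Pool.Agent.N835.PQ
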